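import Pool.Agent.H6.SubCx

namespace Pool.Agent.Results.MP_c3017e_co.Q1False
open Filter Topology Pool.Agent.H6.SubCx

theorem result (k : ℕ) (_hk : 2 ≤ k) :
    Tendsto (fun n : ℕ => (seqs k n : ℝ) / (Real.logb 2 k * (2 : ℝ) ^ ((n : ℝ) / 2))) atTop (𝓝 0) ∧
    ¬ Tendsto (fun n : ℕ => (seqs k n : ℝ) / (Real.logb 2 k * (2 : ℝ) ^ ((n : ℝ) / 2))) atTop
      (𝓝 1) := by
  have h : Tendsto (fun n : ℕ => (seqs k n : ℝ) / (Real.logb 2 k * (2 : ℝ) ^ ((n : ℝ) / 2)))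
      atTop (𝓝 0) := by
    have := (tends k).div_const (Real.logb 2 k)
    rw [zero_div] at this
    exact this.congr fun n => by rw [div_div, mul_comm]
  exact ⟨h, fun h' => zero_ne_one (tendsto_nhds_unique h h')⟩

end Pool.Agent.Results.MP_c3017e_co.Q1False
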